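import Pool.Agent.Y773.D4.Def

/-!
# Project D4 (owner helper773): test elements for the conductor (job TWB)

Author helper750.
-/

set_option autoImplicit false

open NumberField

namespace Pool.Agent.Y750.D4

open Pool.Agent.Y773.D4
open Pool.Agent.Y773.G (IsPrimChar)

/-- the residue rings of the Gaussian integers are finite -/
theorem finite_quot (p : GaussianInt) (hp : p ≠ 0) :
    Finite (GaussianInt ⧸ (Ideal.span {p} : Ideal GaussianInt)) := by
  set N : ℕ := p.norm.natAbs with hN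
  have hN0 : N ≠ 0 := by
    rw [hN, Int.natAbs_ne_zero]
    intro h
    exact hp ((GaussianInt.norm_eq_zero (x := p)).1 h)
  have : NeZero N := ⟨hN0⟩
  have hpN : p ∣ (N : GaussianInt) := by
    refine ⟨star p, ?_⟩
    rw [← Zsqrtd.norm_eq_mul_conj]
    have : ((p.norm.natAbs : ℕ) : ℤ) = p.norm := Int.natAbs_of_nonneg (GaussianInt.norm_nonneg p)
    rw [hN]
    rw [← this]
    simp
  refine Finite.of_surjective
    (fun t : Fin N × Fin N => Ideal.Quotient.mk (Ideal.span {p})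
      (⟨((t.1 : ℕ) : ℤ), ((t.2 : ℕ) : ℤ)⟩ : GaussianInt)) ?_
  intro y
  obtain ⟨z, rfl⟩ := Ideal.Quotient.mk_surjective y
  have hNpos : (0 : ℤ) < N := by exact_mod_cast Nat.pos_of_ne_zero hN0
  have h1 : 0 ≤ z.re % N := Int.emod_nonneg _ hNpos.ne'
  have h2 : z.re % N < N := Int.emod_lt_of_pos _ hNpos
  have h3 : 0 ≤ z.im % N := Int.emod_nonneg _ hNpos.ne'
  have h4 : z.im % N < N := Int.emod_lt_of_pos _ hNpos
  refine ⟨(⟨(z.re % N).toNat, by omega⟩, ⟨(z.im % N).toNat, by omega⟩), ?_⟩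
  rw [Ideal.Quotient.eq, Ideal.mem_span_singleton]
  refine hpN.trans ⟨⟨-(z.re / N), -(z.im / N)⟩, ?_⟩
  have e1 : (((z.re % N).toNat : ℕ) : ℤ) = z.re % N := Int.toNat_of_nonneg h1
  have e2 : (((z.im % N).toNat : ℕ) : ℤ) = z.im % N := Int.toNat_of_nonneg h3
  have d1 := Int.emod_add_mul_ediv z.re N
  have d2 := Int.emod_add_mul_ediv z.im N
  apply Zsqrtd.ext
  · simp only [Zsqrtd.re_sub, Zsqrtd.re_mul, Zsqrtd.re_natCast, Zsqrtd.im_natCast]
    rw [e1]; linarith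
  · simp only [Zsqrtd.im_sub, Zsqrtd.im_mul, Zsqrtd.re_natCast, Zsqrtd.im_natCast]
    rw [e2]; linarith

/-- the conic over a finite field of odd characteristic -/
theorem exists_conic_aux {F : Type} [Field F] [Finite F] (f : GaussianInt →+* F)
    (hf : Function.Surjective f) (α u : GaussianInt) (h2 : f 2 ≠ 0) (hα : f α ≠ 0) :
    ∃ a b : GaussianInt, f (a ^ 2 - α * b ^ 2 - u) = 0 := by
  classical
  have := Fintype.ofFinite F
  have hodd : Fintype.card F % 2 = 1 := by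
    apply FiniteField.odd_card_of_char_ne_two (F := F)
    intro h
    have h0 : ((2 : ℕ) : F) = 0 := (ringChar.spec F 2).2 (Eq.dvd h)
    apply h2
    rw [← h0]
    have : (2 : GaussianInt) = ((2 : ℕ) : GaussianInt) := by norm_num
    rw [this, map_natCast]
  obtain ⟨a, b, hab⟩ := FiniteField.exists_root_sum_quadratic (R := F)
    (f := Polynomial.X ^ 2 - Polynomial.C (f u)) (g := Polynomial.C (-(f α)) * Polynomial.X ^ 2)
    (Polynomial.degree_X_pow_sub_C (by norm_num) _)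
    (Polynomial.degree_C_mul_X_pow 2 (neg_ne_zero.2 hα)) hodd
  obtain ⟨a, rfl⟩ := hf a
  obtain ⟨b, rfl⟩ := hf b
  refine ⟨a, b, ?_⟩
  simp only [Polynomial.eval_sub, Polynomial.eval_pow, Polynomial.eval_X, Polynomial.eval_C,
    Polynomial.eval_mul] at hab
  simp only [map_sub, map_pow, map_mul]
  linear_combination hab

/-- the conic `a ^ 2 - α b ^ 2 = u` has a point modulo a prime not dividing `2 α` -/
theorem exists_conic (p α u : GaussianInt) (hp : Prime p) (h2 : ¬ p ∣ 2) (hα : ¬ p ∣ α) :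
    ∃ a b : GaussianInt, p ∣ a ^ 2 - α * b ^ 2 - u := by
  have hfin := finite_quot p hp.ne_zero
  have hmax : (Ideal.span {p} : Ideal GaussianInt).IsMaximal :=
    PrincipalIdealRing.isMaximal_of_irreducible hp.irreducible
  have key : ∀ z : GaussianInt, Ideal.Quotient.mk (Ideal.span {p}) z = 0 ↔ p ∣ z := by
    intro z
    rw [Ideal.Quotient.eq_zero_iff_mem, Ideal.mem_span_singleton]
  obtain ⟨a, b, h⟩ := @exists_conic_aux (GaussianInt ⧸ (Ideal.span {p} : Ideal GaussianInt))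
    (Ideal.Quotient.field (Ideal.span {p})) hfin (Ideal.Quotient.mk (Ideal.span {p}))
    Ideal.Quotient.mk_surjective α u (fun h => h2 ((key _).1 h)) (fun h => hα ((key _).1 h))
  exact ⟨a, b, (key _).1 h⟩

/-- the solution with prescribed residues -/
theorem exists_ab (R : ℕ) (p q1 α u : GaussianInt) (hp : Prime p)
    (hR : ¬ p ∣ (R : GaussianInt)) (h2 : ¬ p ∣ 2) (hα : ¬ p ∣ α) (hu : q1 ∣ u - 1) :
    ∃ a b : GaussianInt, (R : GaussianInt) * q1 ∣ a - 1 ∧ (R : GaussianInt) * q1 ∣ b ∧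
      p * q1 ∣ a ^ 2 - α * b ^ 2 - u := by
  by_cases hpq : p ∣ q1
  · obtain ⟨v, hv⟩ := hu
    have hcop : IsCoprime p (2 * (R : GaussianInt)) := by
      rw [hp.irreducible.coprime_iff_not_dvd]
      intro h
      rcases hp.dvd_or_dvd h with h | h
      · exact h2 h
      · exact hR h
    obtain ⟨s, t, hst⟩ := hcop
    obtain ⟨w, hw⟩ := hpq
    refine ⟨1 + q1 * (R * t * v), 0, ⟨t * v, by ring⟩, dvd_zero _, ?_⟩
    have hu' : u = 1 + q1 * v := by linear_combination hv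
    refine ⟨-(s * v) + w * (R * t * v) ^ 2, ?_⟩
    rw [hu']
    have e : (1 + q1 * ((R : GaussianInt) * t * v)) ^ 2 - α * 0 ^ 2 - (1 + q1 * v) =
        q1 * v * (t * (2 * (R : GaussianInt)) - 1) + q1 * q1 * ((R : GaussianInt) * t * v) ^ 2 := by
      ring
    rw [e]
    have e2 : t * (2 * (R : GaussianInt)) - 1 = - (s * p) := by linear_combination hst
    rw [e2]
    nth_rewrite 2 [hw]
    ring
  · obtain ⟨a0, b0, h0⟩ := exists_conic p α u hp h2 hα
    have hcop : IsCoprime p ((R : GaussianInt) * q1) := by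
      rw [hp.irreducible.coprime_iff_not_dvd]
      intro h
      rcases hp.dvd_or_dvd h with h | h
      · exact hR h
      · exact hpq h
    have hcop1 : IsCoprime p q1 := by
      rw [hp.irreducible.coprime_iff_not_dvd]; exact hpq
    obtain ⟨s, t, hst⟩ := hcop
    refine ⟨1 + R * q1 * (t * (a0 - 1)), R * q1 * (t * b0), ⟨t * (a0 - 1), by ring⟩,
      ⟨t * b0, by ring⟩, ?_⟩
    apply hcop1.mul_dvd
    · have ea : 1 + (R : GaussianInt) * q1 * (t * (a0 - 1)) = a0 - p * (s * (a0 - 1)) := by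
        linear_combination (a0 - 1) * hst
      have eb : (R : GaussianInt) * q1 * (t * b0) = b0 - p * (s * b0) := by
        linear_combination b0 * hst
      rw [ea, eb]
      obtain ⟨k, hk⟩ := h0
      refine ⟨k - 2 * a0 * (s * (a0 - 1)) + p * (s * (a0 - 1)) ^ 2
        + α * (2 * b0 * (s * b0)) - α * p * (s * b0) ^ 2, ?_⟩
      linear_combination hk
    · obtain ⟨k, hk⟩ := hu
      refine ⟨2 * (R * (t * (a0 - 1))) + q1 * (R * (t * (a0 - 1))) ^ 2
        - α * (q1 * (R * (t * b0)) ^ 2) - k, ?_⟩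
      linear_combination -hk

/-- the natural number `R` -/
theorem exists_R {M : Type} [Field M] [NumberField M] (𝔣 : Ideal (𝓞 M)) (hbot : 𝔣 ≠ ⊥)
    (α : GaussianInt) (hα0 : α ≠ 0) :
    ∃ R : ℕ, R ≠ 0 ∧ (R : 𝓞 M) ∈ 𝔣 ∧ (2 : GaussianInt) ∣ (R : GaussianInt) ∧
      α ∣ (R : GaussianInt) := by
  have hαn : α.norm.natAbs ≠ 0 := by
    rw [Int.natAbs_ne_zero]
    intro h
    exact hα0 ((GaussianInt.norm_eq_zero (x := α)).1 h)
  have hf0 : Ideal.absNorm 𝔣 ≠ 0 := by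
    rw [Ne, Ideal.absNorm_eq_zero_iff]; exact hbot
  have hαd : α ∣ ((α.norm.natAbs : ℕ) : GaussianInt) := by
    refine ⟨star α, ?_⟩
    rw [← Zsqrtd.norm_eq_mul_conj]
    have : ((α.norm.natAbs : ℕ) : ℤ) = α.norm := Int.natAbs_of_nonneg (GaussianInt.norm_nonneg α)
    rw [← this]
    simp
  have hm := Ideal.absNorm_mem 𝔣
  generalize Ideal.absNorm 𝔣 = n at hf0 hm
  generalize α.norm.natAbs = m at hαn hαd
  refine ⟨2 * m * n, Nat.mul_ne_zero (Nat.mul_ne_zero (by norm_num) hαn) hf0, ?_, ?_, ?_⟩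
  · rw [Nat.cast_mul]
    exact Ideal.mul_mem_left _ _ hm
  · refine ⟨((m * n : ℕ) : GaussianInt), ?_⟩
    push_cast; ring
  · refine hαd.trans ⟨((2 * n : ℕ) : GaussianInt), ?_⟩
    push_cast; ring

/-- the element `a + b θ` -/
theorem elem_props {M : Type} [Field M] [NumberField M] [Algebra GaussianInt (𝓞 M)]
    (σ : M ≃ₐ[ℚ] M)
    (hfix : ∀ z : GaussianInt, sg σ (algebraMap GaussianInt (𝓞 M) z) =
      algebraMap GaussianInt (𝓞 M) z)
    (𝔣 : Ideal (𝓞 M)) (θ : 𝓞 M) (α : GaussianInt)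
    (hθ : θ ^ 2 = algebraMap GaussianInt (𝓞 M) α) (hσθ : sg σ θ = -θ)
    (R : ℕ) (hRf : (R : 𝓞 M) ∈ 𝔣) (q1 a b : GaussianInt)
    (ha : (R : GaussianInt) * q1 ∣ a - 1) (hb : (R : GaussianInt) * q1 ∣ b) :
    ∃ x : 𝓞 M, algebraMap GaussianInt (𝓞 M) (a ^ 2 - α * b ^ 2) = x * sg σ x ∧
      x - 1 ∈ 𝔣 * up M q1 := by
  obtain ⟨a', ha'⟩ := ha
  obtain ⟨b', hb'⟩ := hb
  have ha2 : a = 1 + (R : GaussianInt) * q1 * a' := by linear_combination ha'
  refine ⟨algebraMap GaussianInt (𝓞 M) a + algebraMap GaussianInt (𝓞 M) b * θ, ?_, ?_⟩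
  · rw [map_add, map_mul, hfix, hfix, hσθ, map_sub, map_pow, map_mul, map_pow, ← hθ]; ring
  · have e1 : algebraMap GaussianInt (𝓞 M) a =
        1 + (R : 𝓞 M) * algebraMap GaussianInt (𝓞 M) q1 * algebraMap GaussianInt (𝓞 M) a' := by
      rw [ha2, map_add, map_one, map_mul, map_mul, map_natCast]
    have e2 : algebraMap GaussianInt (𝓞 M) b =
        (R : 𝓞 M) * algebraMap GaussianInt (𝓞 M) q1 * algebraMap GaussianInt (𝓞 M) b' := by
      rw [hb', map_mul, map_mul, map_natCast]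
    have e3 : algebraMap GaussianInt (𝓞 M) a + algebraMap GaussianInt (𝓞 M) b * θ - 1 =
        (R : 𝓞 M) * algebraMap GaussianInt (𝓞 M) q1 *
          (algebraMap GaussianInt (𝓞 M) a' + algebraMap GaussianInt (𝓞 M) b' * θ) := by
      rw [e1, e2]; ring
    rw [e3]
    exact Ideal.mul_mem_right _ _ (Ideal.mul_mem_mul hRf (Ideal.mem_span_singleton_self _))

/-- a number congruent to a unit modulo `p q1` is not zero -/
theorem z_ne {p q1 u z : GaussianInt} (hp : Prime p) (hcop : IsCoprime u (p * q1))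
    (hab : p * q1 ∣ z - u) : z ≠ 0 := by
  intro h
  have h1 : p ∣ u := by
    have := (dvd_mul_right p q1).trans hab
    rwa [h, zero_sub, dvd_neg] at this
  exact hp.not_isUnit (hcop.isUnit_of_dvd' h1 (dvd_mul_right p q1))

/-- the test elements, for any character `φ` which is trivial on the ray -/
theorem twb_core (M : Type) [Field M] [NumberField M] [Algebra GaussianInt (𝓞 M)]
    (σ : M ≃ₐ[ℚ] M) (Nm : Ideal (𝓞 M) →*₀ Ideal GaussianInt) (hrel : Rel σ Nm) (T : Tls σ Nm)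
    (𝔣 : Ideal (𝓞 M)) (φ : Ideal (𝓞 M) →*₀ ℂ) (hbot : 𝔣 ≠ ⊥)
    (hray : ∀ x : 𝓞 M, x ≠ 0 → x - 1 ∈ 𝔣 → Pool.Agent.Y773.TPos M x → φ (Ideal.span {x}) = 1) :
    ∃ R : ℕ, R ≠ 0 ∧ (R : 𝓞 M) ∈ 𝔣 ∧
      ∀ (q : GaussianInt) (χ : GaussianInt →* ℂ), GC q χ → ∀ p q1 : GaussianInt, Prime p →
        ¬ p ∣ (R : GaussianInt) → q = p * q1 →
        ∃ x : 𝓞 M, x ≠ 0 ∧ x - 1 ∈ 𝔣 * up M q1 ∧ IsCoprime (Ideal.span {x}) (𝔣 * up M q) ∧
          φ (Ideal.span {x}) = 1 ∧ chI χ (Nm (Ideal.span {x})) ≠ 1 := by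
  obtain ⟨θ, α, r, hα0, hr0, hθ, hσθ, -⟩ := hrel.th
  obtain ⟨R, hR0, hRf, h2R, hαR⟩ := exists_R 𝔣 hbot α hα0
  refine ⟨R, hR0, hRf, ?_⟩
  intro q χ hχ p q1 hp hpR hq
  have hp2 : ¬ p ∣ 2 := fun h => hpR (h.trans h2R)
  have hpα : ¬ p ∣ α := fun h => hpR (h.trans hαR)
  have hq0 := hχ.q0
  have hq10 : q1 ≠ 0 := by
    rintro rfl
    exact hq0 (by rw [hq, mul_zero])
  have hnd : ¬ q ∣ q1 := by
    rintro ⟨c, hc⟩
    apply hp.not_isUnit
    have : q1 * 1 = q1 * (p * c) := by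
      rw [mul_one]; nth_rewrite 1 [hc]; rw [hq]; ring
    have h1 := mul_left_cancel₀ hq10 this
    exact IsUnit.of_mul_eq_one c h1.symm
  obtain ⟨u, hucop, hu1, huχ⟩ := hχ.prim q1 ⟨p, by rw [hq]; ring⟩ hnd
  obtain ⟨a, b, ha, hb, hab⟩ := exists_ab R p q1 α u hp hpR hp2 hpα hu1
  rw [← hq] at hab
  obtain ⟨x, hz, hxmem⟩ := elem_props σ hrel.fix 𝔣 θ α hθ hσθ R hRf q1 a b ha hb
  have hNm := hrel.nm1 x _ hz
  have hχz : χ (a ^ 2 - α * b ^ 2) = χ u := hχ.per _ _ hab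
  have hval : chI χ (Nm (Ideal.span {x})) = χ u := by
    rw [hNm, T.span q χ hχ, hχz]
  have hu0 : χ u ≠ 0 := (hχ.supp u).2 hucop
  have hle : 𝔣 * up M q1 ≤ 𝔣 := Ideal.mul_le_left
  have hxf : x - 1 ∈ 𝔣 := hle hxmem
  have hz0 : a ^ 2 - α * b ^ 2 ≠ 0 := z_ne hp (hq ▸ hucop) (hq ▸ hab)
  have hx0 : x ≠ 0 := by
    intro h0
    apply hz0
    apply hrel.inj
    rw [hz, h0, zero_mul, map_zero]
  refine ⟨x, hx0, hxmem, ?_, hray x hx0 hxf (T.tpos x), by rw [hval]; exact huχ⟩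
  apply IsCoprime.mul_right
  · rw [Ideal.isCoprime_iff_exists]
    exact ⟨x, Ideal.mem_span_singleton_self x, 1 - x, by
      have := 𝔣.neg_mem hxf
      rwa [neg_sub] at this, by ring⟩
  · rw [← T.ne q χ hχ, hval]; exact hu0

/-- **TWB**. -/
theorem t_twb : St_TL → St_TWB := by
  intro hTL M _ _ _ σ Nm hrel 𝔣 φ hφ
  exact twb_core M σ Nm hrel (hTL M σ Nm hrel) 𝔣 φ hφ.ne_bot (fun x _ h1 h2 => hφ.ray x h1 h2)

end Pool.Agent.Y750.D4
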